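import Pool.Agent.Helper28_TP.DyS

/-!
# RIE: lower Riemann sums of the Gaussian density over boxes
-/

set_option autoImplicit false

namespace Pool.Agent.TP.H99

open Pool.Agent.TP MeasureTheory ProbabilityTheory

variable {k : ℕ}

instance instProbStep (k : ℕ) (s : ℝ) : IsProbabilityMeasure (stepLaw k s) := by
  unfold stepLaw
  infer_instance

instance instProbWalk (k : ℕ) (s : ℝ) : IsProbabilityMeasure (walkLaw k s) := by
  unfold walkLaw
  infer_instance

theorem cube_eq (y : Sp k) (κ : ℝ) :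
    cube y κ = Set.pi Set.univ (fun a => Set.Ico (y a) (y a + κ)) := by
  ext x
  simp [cube, Set.mem_pi]

theorem cube_meas (y : Sp k) (κ : ℝ) : MeasurableSet (cube y κ) := by
  rw [cube_eq]
  exact MeasurableSet.univ_pi fun a => measurableSet_Ico

theorem cube_vol (y : Sp k) {κ : ℝ} (hκ : 0 ≤ κ) :
    volume (cube y κ) = ENNReal.ofReal (κ ^ (k + 2)) := by
  rw [cube_eq, Real.volume_pi_Ico]
  simp only [add_sub_cancel_left]
  rw [Finset.prod_const, Finset.card_univ, Fintype.card_fin, ENNReal.ofReal_pow hκ]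

/-- One coordinate of the density comparison. -/
theorem dens1 {al D κ u u' : ℝ} (hal : 0 < al) (hD : 0 < D) (hu : |u - u'| ≤ κ) :
    ((Real.sqrt (1 + al))⁻¹ * Real.exp (-((1 + 1 / al) * κ ^ 2 / (2 * D)))) *
      (Real.exp (-u' ^ 2 / (2 * (D / (1 + al)))) / Real.sqrt (2 * Real.pi * (D / (1 + al)))) ≤
      Real.exp (-u ^ 2 / (2 * D)) / Real.sqrt (2 * Real.pi * D) := by
  have h1 : 0 < 1 + al := by linarith
  have hs : Real.sqrt (2 * Real.pi * D) =
      Real.sqrt (1 + al) * Real.sqrt (2 * Real.pi * (D / (1 + al))) := by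
    rw [← Real.sqrt_mul h1.le]
    congr 1
    field_simp
  have hpos1 : 0 < Real.sqrt (1 + al) := Real.sqrt_pos.2 h1
  have hpos2 : 0 < Real.sqrt (2 * Real.pi * (D / (1 + al))) :=
    Real.sqrt_pos.2 (by have := Real.pi_pos; positivity)
  rw [hs]
  have h2 : ((Real.sqrt (1 + al))⁻¹ * Real.exp (-((1 + 1 / al) * κ ^ 2 / (2 * D)))) *
      (Real.exp (-u' ^ 2 / (2 * (D / (1 + al)))) / Real.sqrt (2 * Real.pi * (D / (1 + al)))) =
      Real.exp (-((1 + 1 / al) * κ ^ 2 / (2 * D)) + -u' ^ 2 / (2 * (D / (1 + al)))) /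
        (Real.sqrt (1 + al) * Real.sqrt (2 * Real.pi * (D / (1 + al)))) := by
    rw [Real.exp_add]
    field_simp
  rw [h2]
  refine div_le_div_of_nonneg_right (Real.exp_le_exp.2 ?_) (by positivity)
  have h3 : u ^ 2 ≤ (1 + al) * u' ^ 2 + (1 + 1 / al) * κ ^ 2 := by
    have h4 : (u - u') ^ 2 ≤ κ ^ 2 := by
      rw [← sq_abs (u - u')]
      exact pow_le_pow_left₀ (abs_nonneg _) hu 2
    have h5 : u ^ 2 ≤ (1 + al) * u' ^ 2 + (1 + 1 / al) * (u - u') ^ 2 := by
      have h6 : (1 + al) * u' ^ 2 + (1 + 1 / al) * (u - u') ^ 2 - u ^ 2 =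
          (al * u' - (u - u')) ^ 2 / al := by
        field_simp
        ring
      have h7 : 0 ≤ (al * u' - (u - u')) ^ 2 / al := by positivity
      linarith
    have h8 : (1 + 1 / al) * (u - u') ^ 2 ≤ (1 + 1 / al) * κ ^ 2 :=
      mul_le_mul_of_nonneg_left h4 (by positivity)
    linarith
  have h9 : -((1 + 1 / al) * κ ^ 2 / (2 * D)) + -u' ^ 2 / (2 * (D / (1 + al))) =
      -((1 + al) * u' ^ 2 + (1 + 1 / al) * κ ^ 2) / (2 * D) := by
    field_simp
    ring
  rw [h9]
  exact div_le_div_of_nonneg_right (by linarith) (by positivity)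

/-- Comparison of the laws of the positions from two points of one box. -/
theorem comp (hG : GauStmt) {s al κ : ℝ} (hs : 0 < s) (hal : 0 < al) {Δ : ℕ} (hΔ : 1 ≤ Δ)
    {x x' : Sp k} (hx : ∀ a, |x a - x' a| ≤ κ) {S : Set (Sp k)} (hS : MeasurableSet S) :
    ENNReal.ofReal (((Real.sqrt (1 + al))⁻¹ *
      Real.exp (-((1 + 1 / al) * κ ^ 2 / (2 * (s ^ 2 * Δ))))) ^ (k + 2)) *
      walkLaw k (s * Real.sqrt (Δ / (1 + al))) {y | walk x' y 1 ∈ S} ≤
      walkLaw k s {y | walk x y Δ ∈ S} := by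
  have hΔ' : (0 : ℝ) < Δ := by exact_mod_cast hΔ
  have h1 : 0 < 1 + al := by linarith
  have hs' : 0 < s * Real.sqrt (Δ / (1 + al)) := mul_pos hs (Real.sqrt_pos.2 (by positivity))
  have hsq : (s * Real.sqrt (Δ / (1 + al))) ^ 2 * ((1 : ℕ) : ℝ) = s ^ 2 * Δ / (1 + al) := by
    rw [mul_pow, Real.sq_sqrt (by positivity), Nat.cast_one, mul_one]
    ring
  rw [hG k s hs Δ hΔ x S hS, hG k _ hs' 1 le_rfl x' S hS, hsq]
  rw [← lintegral_const_mul' _ _ ENNReal.ofReal_ne_top]
  refine lintegral_mono fun z => ?_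
  rw [← ENNReal.ofReal_mul (by positivity)]
  refine ENNReal.ofReal_le_ofReal ?_
  have h2 : ((Real.sqrt (1 + al))⁻¹ *
      Real.exp (-((1 + 1 / al) * κ ^ 2 / (2 * (s ^ 2 * Δ))))) ^ (k + 2) =
      ∏ _a : Fin (k + 2), ((Real.sqrt (1 + al))⁻¹ *
      Real.exp (-((1 + 1 / al) * κ ^ 2 / (2 * (s ^ 2 * Δ))))) := by
    rw [Finset.prod_const, Finset.card_univ, Fintype.card_fin]
  rw [h2, ← Finset.prod_mul_distrib]
  refine Finset.prod_le_prod (fun a _ => by positivity) fun a _ => ?_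
  refine dens1 hal (by positivity) ?_
  have h3 : z a - x a - (z a - x' a) = -(x a - x' a) := by ring
  rw [h3, abs_neg]
  exact hx a

/-- The first step is small with large probability. -/
theorem cheb (s' : ℝ) {L : ℝ} (hL : 0 < L) :
    1 - ENNReal.ofReal ((k + 2) * (s' ^ 2 / L ^ 2)) ≤
      walkLaw k s' {y | ∀ a, |y 0 a| ≤ L} := by
  have hm : MeasurableSet {y : ℕ → Sp k | ∀ a, |y 0 a| ≤ L} := by
    rw [Set.ofPred_forall]
    exact MeasurableSet.iInter fun a => measurableSet_le (by fun_prop) (by fun_prop)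
  have h1 : walkLaw k s' {y : ℕ → Sp k | ∀ a, |y 0 a| ≤ L}ᶜ ≤
      ENNReal.ofReal ((k + 2) * (s' ^ 2 / L ^ 2)) := by
    have h2 : {y : ℕ → Sp k | ∀ a, |y 0 a| ≤ L}ᶜ ⊆ ⋃ a : Fin (k + 2), {y | L ≤ |y 0 a|} := by
      intro y hy
      simp only [Set.mem_compl_iff, Set.mem_ofPred_eq, not_forall, not_le] at hy
      obtain ⟨a, ha⟩ := hy
      exact Set.mem_iUnion.2 ⟨a, ha.le⟩
    refine (measure_mono h2).trans ((measure_iUnion_fintype_le _ _).trans ?_)
    have h3 : ∀ a : Fin (k + 2), walkLaw k s' {y | L ≤ |y 0 a|} ≤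
        ENNReal.ofReal (s' ^ 2 / L ^ 2) := by
      intro a
      have hp : MeasurePreserving (fun y : ℕ → Sp k => y 0 a) (walkLaw k s')
          (gaussianReal 0 (Real.toNNReal (s' ^ 2))) := by
        have e1 : MeasurePreserving (fun y : ℕ → Sp k => y 0) (walkLaw k s') (stepLaw k s') :=
          measurePreserving_eval_infinitePi (fun _ : ℕ => stepLaw k s') 0
        have e2 : MeasurePreserving (fun x : Sp k => x a) (stepLaw k s')
            (gaussianReal 0 (Real.toNNReal (s' ^ 2))) :=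
          measurePreserving_eval (fun _ : Fin (k + 2) =>
            gaussianReal 0 (Real.toNNReal (s' ^ 2))) a
        exact e2.comp e1
      have h4 : {y : ℕ → Sp k | L ≤ |y 0 a|} = (fun y : ℕ → Sp k => y 0 a) ⁻¹' {u | L ≤ |u|} :=
        rfl
      rw [h4, hp.measure_preimage (measurableSet_le (by fun_prop) (by fun_prop)).nullMeasurableSet]
      have h5 := meas_ge_le_variance_div_sq
        (memLp_id_gaussianReal (μ := 0) (v := Real.toNNReal (s' ^ 2)) 2) hL
      simp only [id_eq, integral_id_gaussianReal, sub_zero] at h5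
      refine h5.trans (ENNReal.ofReal_le_ofReal ?_)
      have h7 : Var[id; gaussianReal 0 (Real.toNNReal (s' ^ 2))] =
          (Real.toNNReal (s' ^ 2) : ℝ) := variance_id_gaussianReal
      rw [h7, Real.coe_toNNReal _ (by positivity)]
    refine (Finset.sum_le_sum fun a _ => h3 a).trans (le_of_eq ?_)
    rw [Finset.sum_const, Finset.card_univ, Fintype.card_fin, nsmul_eq_mul,
      ENNReal.ofReal_mul (by positivity)]
    congr 1
    rw [show ((k : ℝ) + 2) = ((k + 2 : ℕ) : ℝ) by push_cast; ring, ENNReal.ofReal_natCast]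
  have h2 : walkLaw k s' {y : ℕ → Sp k | ∀ a, |y 0 a| ≤ L} =
      1 - walkLaw k s' {y : ℕ → Sp k | ∀ a, |y 0 a| ≤ L}ᶜ := by
    have := prob_compl_eq_one_sub (μ := walkLaw k s') hm.compl
    rwa [compl_compl] at this
  rw [h2]
  exact tsub_le_tsub_left h1 _

theorem walk_one (x : Sp k) (y : ℕ → Sp k) : walk x y 1 = fun a => x a + y 0 a := by
  funext a
  simp [walk]

/-- Mass received by a cell from all boxes. -/
theorem mass (s' : ℝ) {κ h : ℝ} (hκ : 0 < κ) (hh : 0 < h) (w : Sp k) (Cm R : ℕ) {c : Pt k}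
    (hc : c ∈ bx (0 : Pt k) R) :
    ENNReal.ofReal (h ^ (k + 2)) * walkLaw k s' {y | ∀ a, |y 0 a| ≤ κ * Cm} ≤
      ∑ j ∈ bx (0 : Pt k) (⌈h * (R + 1) / κ⌉₊ + Cm),
        ∫⁻ x in cube (fun a => w a + κ * j a) κ, walkLaw k s' {y | walk x y 1 ∈ cel h w c} := by
  set m : ℕ := ⌈h * (R + 1) / κ⌉₊ + Cm with hm
  have hmκ : h * (R + 1) + κ * Cm ≤ κ * m := by
    have h1 : h * (R + 1) / κ ≤ ⌈h * (R + 1) / κ⌉₊ := Nat.le_ceil _
    rw [div_le_iff₀ hκ] at h1
    rw [hm]
    push_cast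
    nlinarith
  -- disjoint boxes
  have hdis : Set.PairwiseDisjoint (↑(bx (0 : Pt k) m) : Set (Pt k))
      (fun j : Pt k => cube (fun a => w a + κ * j a) κ) := by
    intro i _ j _ hij
    change Disjoint (cube (fun a => w a + κ * i a) κ) (cube (fun a => w a + κ * j a) κ)
    rw [Set.disjoint_left]
    intro x hx hx'
    apply hij
    funext a
    obtain ⟨h1, h2⟩ := hx a
    obtain ⟨h3, h4⟩ := hx' a
    have h5 : κ * (i a : ℝ) < κ * ((j a : ℝ) + 1) := by nlinarith
    have h6 : κ * (j a : ℝ) < κ * ((i a : ℝ) + 1) := by nlinarith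
    have h7 := lt_of_mul_lt_mul_left h5 hκ.le
    have h8 := lt_of_mul_lt_mul_left h6 hκ.le
    have h9 : i a < j a + 1 := by exact_mod_cast h7
    have h10 : j a < i a + 1 := by exact_mod_cast h8
    omega
  have hbm : ∀ j ∈ bx (0 : Pt k) m, MeasurableSet (cube (fun a => w a + κ * j a) κ) :=
    fun j _ => cube_meas _ _
  rw [← lintegral_biUnion_finset hdis hbm]
  set I : Set (Sp k) := {x | ∀ a, w a - κ * m ≤ x a ∧ x a < w a + κ * (m + 1)} with hI
  have hIsub : I ⊆ ⋃ j ∈ bx (0 : Pt k) m, cube (fun a => w a + κ * j a) κ := by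
    intro x hx
    rw [Set.mem_iUnion₂]
    refine ⟨fun a => ⌊(x a - w a) / κ⌋, ?_, ?_⟩
    · rw [mem_bx]
      intro a
      obtain ⟨h1, h2⟩ := hx a
      have h3 : (-(m : ℤ) : ℤ) ≤ ⌊(x a - w a) / κ⌋ := by
        rw [Int.le_floor, le_div_iff₀ hκ]
        push_cast
        linarith
      have h4 : ⌊(x a - w a) / κ⌋ < (m : ℤ) + 1 := by
        rw [Int.floor_lt, div_lt_iff₀ hκ]
        push_cast
        linarith
      simp only [Pi.zero_apply, sub_zero]
      rw [abs_le]
      omega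
    · intro a
      have h1 : (⌊(x a - w a) / κ⌋ : ℝ) ≤ (x a - w a) / κ := Int.floor_le _
      have h2 : (x a - w a) / κ < ⌊(x a - w a) / κ⌋ + 1 := Int.lt_floor_add_one _
      rw [le_div_iff₀ hκ] at h1
      rw [div_lt_iff₀ hκ] at h2
      constructor
      · linarith
      · linarith
  have hIm : MeasurableSet I := by
    have h1 : I = Set.pi Set.univ (fun a => Set.Ico (w a - κ * m) (w a + κ * (m + 1))) := by
      ext x
      simp [I, Set.mem_pi]
    rw [h1]
    exact MeasurableSet.univ_pi fun a => measurableSet_Ico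
  refine le_trans ?_ (lintegral_mono_set hIsub)
  -- Fubini
  let P : Set (Sp k × (ℕ → Sp k)) := {z | z.1 ∈ I ∧ walk z.1 z.2 1 ∈ cel h w c}
  have hPm : MeasurableSet P := by
    refine (measurable_fst hIm).inter ?_
    have h1 : Measurable (fun z : Sp k × (ℕ → Sp k) => walk z.1 z.2 1) := by
      simp only [walk_one]
      refine measurable_pi_lambda _ fun a => ?_
      fun_prop
    exact h1 (cube_meas _ _)
  have e1 : (volume.prod (walkLaw k s')) P =
      ∫⁻ x in I, walkLaw k s' {y | walk x y 1 ∈ cel h w c} := by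
    rw [Measure.prod_apply hPm, ← lintegral_indicator hIm]
    refine lintegral_congr fun x => ?_
    by_cases hx : x ∈ I
    · rw [Set.indicator_of_mem hx]
      congr 1
      ext y
      simp [P, hx]
    · rw [Set.indicator_of_notMem hx]
      have : Prod.mk x ⁻¹' P = ∅ := by
        ext y
        simp [P, hx]
      rw [this, measure_empty]
  rw [← e1, Measure.prod_apply_symm hPm]
  have hTm : MeasurableSet {y : ℕ → Sp k | ∀ a, |y 0 a| ≤ κ * Cm} := by
    rw [Set.ofPred_forall]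
    exact MeasurableSet.iInter fun a => measurableSet_le (by fun_prop) (by fun_prop)
  calc ENNReal.ofReal (h ^ (k + 2)) * walkLaw k s' {y | ∀ a, |y 0 a| ≤ κ * Cm}
      = ∫⁻ _ in {y : ℕ → Sp k | ∀ a, |y 0 a| ≤ κ * Cm}, ENNReal.ofReal (h ^ (k + 2))
          ∂(walkLaw k s') := by
        rw [setLIntegral_const]
    _ = ∫⁻ y, {y : ℕ → Sp k | ∀ a, |y 0 a| ≤ κ * Cm}.indicator
          (fun _ => ENNReal.ofReal (h ^ (k + 2))) y ∂(walkLaw k s') := by
        rw [lintegral_indicator hTm]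
    _ ≤ ∫⁻ y, volume ((fun x => (x, y)) ⁻¹' P) ∂(walkLaw k s') := by
        refine lintegral_mono fun y => ?_
        by_cases hy : y ∈ {y : ℕ → Sp k | ∀ a, |y 0 a| ≤ κ * Cm}
        · rw [Set.indicator_of_mem hy]
          rw [← cube_vol (fun a => w a + h * c a - y 0 a) hh.le]
          refine measure_mono ?_
          intro x hx
          have hc' := mem_bx.1 hc
          refine ⟨fun a => ?_, fun a => ?_⟩
          · obtain ⟨h1, h2⟩ := hx a
            have h3 := hy a
            have h4 := hc' a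
            simp only [Pi.zero_apply, sub_zero] at h4
            rw [abs_le] at h3 h4
            have h5 : (-(R : ℝ)) ≤ c a := by exact_mod_cast h4.1
            have h6 : (c a : ℝ) ≤ R := by exact_mod_cast h4.2
            have h7 : h * (-(R : ℝ)) ≤ h * c a := mul_le_mul_of_nonneg_left h5 hh.le
            have h8 : h * (c a : ℝ) ≤ h * R := mul_le_mul_of_nonneg_left h6 hh.le
            constructor
            · nlinarith [h3.2]
            · nlinarith [h3.1]
          · rw [walk_one]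
            obtain ⟨h1, h2⟩ := hx a
            constructor
            · linarith
            · linarith
        · rw [Set.indicator_of_notMem hy]
          exact zero_le

theorem rie (hG : GauStmt) : RieStmt := by
  intro k s ε hs hε hε1
  set d : ℝ := k + 2 with hd
  have hd0 : 0 < d := by positivity
  have hd2 : 2 ≤ d := by
    rw [hd]
    have : (0 : ℝ) ≤ k := Nat.cast_nonneg k
    linarith
  set al : ℝ := ε / (4 * d) with hal
  have hal0 : 0 < al := by positivity
  have hal1 : al ≤ 1 := by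
    rw [hal, div_le_one (by positivity)]
    linarith
  set Cm : ℕ := ⌈8 * d / (al ^ 2 * ε)⌉₊ + 1 with hCm
  refine ⟨s * al, Cm, by positivity, by nlinarith, ?_⟩
  intro Δ κ h hΔ hκ hκ1 hκ2 hh w
  have hΔ' : (0 : ℝ) < Δ := by exact_mod_cast hΔ
  have hCm1 : (1 : ℝ) ≤ Cm := by
    rw [hCm]
    push_cast
    have : (0 : ℝ) ≤ ⌈8 * d / (al ^ 2 * ε)⌉₊ := Nat.cast_nonneg _
    linarith
  have hCm2 : 8 * d / (al ^ 2 * ε) ≤ (Cm : ℝ) ^ 2 := by
    have h1 : 8 * d / (al ^ 2 * ε) ≤ ⌈8 * d / (al ^ 2 * ε)⌉₊ := Nat.le_ceil _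
    have h2 : 8 * d / (al ^ 2 * ε) ≤ Cm := by
      rw [hCm]
      push_cast
      linarith
    nlinarith
  set s' : ℝ := s * Real.sqrt (Δ / (1 + al)) with hs'
  set A₁ : ℝ := (Real.sqrt (1 + al))⁻¹ * Real.exp (-((1 + 1 / al) * κ ^ 2 / (2 * (s ^ 2 * Δ))))
    with hA₁
  have hA₁0 : 0 < A₁ := by
    have : 0 < Real.sqrt (1 + al) := Real.sqrt_pos.2 (by linarith)
    positivity
  -- lower bound for `A₁`
  have hκsq : κ ^ 2 ≤ s ^ 2 * al ^ 2 * Δ := by
    have h1 : κ ^ 2 ≤ (s * al * Real.sqrt Δ) ^ 2 := pow_le_pow_left₀ hκ.le hκ1 2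
    rwa [mul_pow, mul_pow, Real.sq_sqrt hΔ'.le] at h1
  have hκsq2 : s ^ 2 * al ^ 2 * Δ ≤ 4 * κ ^ 2 := by
    have h1 : (s * al * Real.sqrt Δ) ^ 2 ≤ (2 * κ) ^ 2 := pow_le_pow_left₀ (by positivity) hκ2 2
    rw [mul_pow, mul_pow, Real.sq_sqrt hΔ'.le] at h1
    nlinarith
  have hA₁1 : 1 - 2 * al ≤ A₁ := by
    have h1 : 1 - al ≤ (Real.sqrt (1 + al))⁻¹ := by
      have h2 : Real.sqrt (1 + al) ≤ 1 + al := by
        rw [Real.sqrt_le_left (by linarith)]
        nlinarith
      have h3 : (1 + al)⁻¹ ≤ (Real.sqrt (1 + al))⁻¹ :=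
        inv_anti₀ (Real.sqrt_pos.2 (by linarith)) h2
      refine le_trans ?_ h3
      rw [← one_div, le_div_iff₀ (by linarith)]
      nlinarith
    have h4 : 1 - al ≤ Real.exp (-((1 + 1 / al) * κ ^ 2 / (2 * (s ^ 2 * Δ)))) := by
      have h5 : (1 + 1 / al) * κ ^ 2 / (2 * (s ^ 2 * Δ)) ≤ al := by
        rw [div_le_iff₀ (by positivity)]
        have h6 : (1 + 1 / al) * κ ^ 2 ≤ (1 + 1 / al) * (s ^ 2 * al ^ 2 * Δ) :=
          mul_le_mul_of_nonneg_left hκsq (by positivity)
        refine h6.trans ?_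
        have h7 : (1 + 1 / al) * (s ^ 2 * al ^ 2 * Δ) = (al + 1) * al * (s ^ 2 * Δ) := by
          field_simp
        rw [h7]
        have h8 : 0 < s ^ 2 * Δ := by positivity
        nlinarith [mul_pos hal0 h8]
      have h9 := Real.add_one_le_exp (-((1 + 1 / al) * κ ^ 2 / (2 * (s ^ 2 * Δ))))
      linarith
    have h10 : (1 - al) * (1 - al) ≤ A₁ :=
      mul_le_mul h1 h4 (by linarith) (by positivity)
    nlinarith
  set A : ℝ := A₁ ^ (k + 2) with hA
  have hA0 : 0 < A := by positivity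
  have hA1 : 1 - ε / 2 ≤ A := by
    have h1 : (1 : ℝ) + ((k + 2 : ℕ) : ℝ) * (-(2 * al)) ≤ (1 + (-(2 * al))) ^ (k + 2) :=
      one_add_mul_le_pow (by linarith) (k + 2)
    have h2 : (1 + (-(2 * al))) ^ (k + 2) ≤ A₁ ^ (k + 2) := by
      refine pow_le_pow_left₀ ?_ (by linarith) _
      have h3 : al ≤ 1 / 8 := by
        rw [hal, div_le_div_iff₀ (by positivity) (by norm_num)]
        linarith
      linarith
    have h3 : (1 : ℝ) + ((k + 2 : ℕ) : ℝ) * (-(2 * al)) = 1 - ε / 2 := by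
      rw [hal]
      push_cast
      rw [← hd]
      field_simp
      ring
    rw [h3] at h1
    exact h1.trans h2
  -- the tail
  have hL : 0 < κ * Cm := by positivity
  set q : ℝ := (k + 2) * (s' ^ 2 / (κ * Cm) ^ 2) with hq
  have hq0 : 0 ≤ q := by positivity
  have hq1 : q ≤ ε / 2 := by
    have h1 : s' ^ 2 ≤ s ^ 2 * Δ := by
      rw [hs', mul_pow, Real.sq_sqrt (by positivity)]
      refine mul_le_mul_of_nonneg_left ?_ (by positivity)
      exact div_le_self hΔ'.le (by linarith)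
    have h2 : 2 * d * (s ^ 2 * Δ) / ε ≤ (κ * Cm) ^ 2 := by
      rw [mul_pow]
      have h3 : s ^ 2 * al ^ 2 * Δ / 4 ≤ κ ^ 2 := by linarith
      have h4 : s ^ 2 * al ^ 2 * Δ / 4 * (8 * d / (al ^ 2 * ε)) ≤ κ ^ 2 * (Cm : ℝ) ^ 2 :=
        mul_le_mul h3 hCm2 (by positivity) (by positivity)
      refine le_trans (le_of_eq ?_) h4
      field_simp
      ring
    have h5 : s' ^ 2 / (κ * Cm) ^ 2 ≤ (s ^ 2 * Δ) / (2 * d * (s ^ 2 * Δ) / ε) :=
      div_le_div₀ (by positivity) h1 (by positivity) h2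
    have h6 : (s ^ 2 * Δ) / (2 * d * (s ^ 2 * Δ) / ε) = ε / (2 * d) := by
      field_simp
    rw [h6] at h5
    rw [hq, ← hd]
    calc d * (s' ^ 2 / (κ * Cm) ^ 2) ≤ d * (ε / (2 * d)) := mul_le_mul_of_nonneg_left h5 hd0.le
      _ = ε / 2 := by field_simp
  have hκd : 0 < κ ^ (k + 2) := by positivity
  set W' : Pt k → Sp k → ENNReal := fun c x => walkLaw k s' {y | walk x y 1 ∈ cel h w c} with hW'
  set J : Pt k → Pt k → ENNReal := fun j c => ∫⁻ x in cube (fun a => w a + κ * j a) κ, W' c x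
    with hJ
  have hJfin : ∀ j c, J j c ≠ ⊤ := by
    intro j c
    have h1 : J j c ≤ ∫⁻ _ in cube (fun a => w a + κ * j a) κ, 1 :=
      lintegral_mono fun x => prob_le_one
    rw [setLIntegral_const, cube_vol _ hκ.le] at h1
    exact ne_top_of_le_ne_top (by simp) h1
  refine ⟨fun j c => (ENNReal.ofReal (A / κ ^ (k + 2)) * J j c).toReal,
    fun j c => ENNReal.toReal_nonneg, ?_, ?_⟩
  · intro j c x hx
    refine ENNReal.toReal_mono (measure_ne_top _ _) ?_
    have h1 : ENNReal.ofReal A * J j c ≤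
        walkLaw k s {y | walk x y Δ ∈ cel h w c} * ENNReal.ofReal (κ ^ (k + 2)) := by
      rw [hJ]
      dsimp only
      rw [← lintegral_const_mul' _ _ ENNReal.ofReal_ne_top, ← cube_vol (fun a => w a + κ * j a) hκ.le,
        ← setLIntegral_const]
      refine setLIntegral_mono' (cube_meas _ _) fun x' hx' => ?_
      refine comp hG hs hal0 hΔ ?_ (cube_meas _ _)
      intro a
      obtain ⟨h1, h2⟩ := hx a
      obtain ⟨h3, h4⟩ := hx' a
      rw [abs_le]
      constructor <;> linarith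
    have h2 : ENNReal.ofReal (A / κ ^ (k + 2)) =
        ENNReal.ofReal ((κ ^ (k + 2))⁻¹) * ENNReal.ofReal A := by
      rw [← ENNReal.ofReal_mul (by positivity)]
      congr 1
      field_simp
    have h3 : ENNReal.ofReal ((κ ^ (k + 2))⁻¹) * ENNReal.ofReal (κ ^ (k + 2)) = 1 := by
      rw [← ENNReal.ofReal_mul (by positivity), inv_mul_cancel₀ hκd.ne', ENNReal.ofReal_one]
    rw [h2, mul_assoc]
    refine (mul_le_mul_right h1 _).trans (le_of_eq ?_)
    rw [mul_comm (walkLaw k s _), ← mul_assoc, h3, one_mul]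
  · intro R c hc
    have h1 : ∀ j, κ ^ (k + 2) * (ENNReal.ofReal (A / κ ^ (k + 2)) * J j c).toReal =
        A * (J j c).toReal := by
      intro j
      rw [ENNReal.toReal_mul, ENNReal.toReal_ofReal (by positivity)]
      field_simp
    simp only [h1]
    rw [← Finset.mul_sum, ← ENNReal.toReal_sum (fun j _ => hJfin j c)]
    have h2 : ENNReal.ofReal (h ^ (k + 2) * (1 - q)) ≤
        ∑ j ∈ bx (0 : Pt k) (⌈h * (R + 1) / κ⌉₊ + Cm), J j c := by
      refine le_trans ?_ (mass s' hκ hh w Cm R hc)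
      rw [ENNReal.ofReal_mul (by positivity), ENNReal.ofReal_sub 1 hq0, ENNReal.ofReal_one]
      exact mul_le_mul_right (cheb s' hL) _
    have h3 : ∑ j ∈ bx (0 : Pt k) (⌈h * (R + 1) / κ⌉₊ + Cm), J j c ≠ ⊤ :=
      (ENNReal.sum_lt_top.2 fun j _ => lt_of_le_of_ne le_top (hJfin j c)).ne
    have h4 := (ENNReal.ofReal_le_iff_le_toReal h3).1 h2
    have h5 : 0 < h ^ (k + 2) := by positivity
    calc (1 - ε) * h ^ (k + 2) ≤ A * (h ^ (k + 2) * (1 - q)) := by
          have h6 : (1 - ε / 2) * (1 - ε / 2) ≤ A * (1 - q) :=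
            mul_le_mul hA1 (by linarith) (by linarith) hA0.le
          have h7 : 1 - ε ≤ A * (1 - q) := by nlinarith
          have h8 := mul_le_mul_of_nonneg_right h7 h5.le
          linarith
      _ ≤ _ := mul_le_mul_of_nonneg_left h4 hA0.le

end Pool.Agent.TP.H99
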