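import Pool.Agent.Helper28_TP.StS

/-!
# SPR: the sprinkling lemma
-/

set_option autoImplicit false

namespace Pool.Agent.TP.H99

open Pool.Agent.TP

variable {k : ℕ}

/-- Probability that the random set misses `S`. -/
theorem PS_miss {α : Type} [DecidableEq α] {V S : Finset α} (h : S ⊆ V) (q : α → ℝ) :
    PS V q (fun A => ∀ a ∈ S, a ∉ A) = ∏ a ∈ S, (1 - q a) := by
  classical
  rw [PS_marg h q (fun A _ => by
    constructor
    · intro h1 a ha h2
      exact h1 a ha (Finset.mem_inter.1 h2).1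
    · intro h1 a ha h2
      exact h1 a ha (Finset.mem_inter.2 ⟨h2, ha⟩)), PS_def]
  unfold EX
  rw [Finset.sum_eq_single (∅ : Finset α)]
  · simp [wt]
  · intro A hA hne
    obtain ⟨a, ha⟩ := Finset.nonempty_of_ne_empty hne
    have hAS := Finset.mem_powerset.1 hA
    have h1 : ¬ ∀ a ∈ S, a ∉ A := fun h1 => h1 a (hAS ha) ha
    simp only [if_neg h1, mul_zero]
  · intro h1
    exact absurd (Finset.empty_mem_powerset S) h1

theorem single_mem {N : Finset (Pt k)} {ρ : ℕ} (hN : GoodN N ρ) (i : Fin (k + 2)) :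
    (Pi.single i (1 : ℤ) : Pt k) ∈ N := by
  have h := hN.perm _ hN.unit (Equiv.swap 0 i)
  have h1 : (fun j => (Pi.single 0 (1 : ℤ) : Pt k) (Equiv.swap 0 i j)) =
      (Pi.single i (1 : ℤ) : Pt k) := by
    funext j
    by_cases hj : j = i
    · subst hj
      rw [Equiv.swap_apply_right]
      simp
    · rw [Pi.single_eq_of_ne hj]
      apply Pi.single_eq_of_ne
      intro h2
      apply hj
      have := congrArg (Equiv.swap 0 i) h2
      rw [Equiv.swap_apply_self, Equiv.swap_apply_left] at this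
      exact this
  rw [h1] at h
  exact h

theorem single_mem' {N : Finset (Pt k)} {ρ : ℕ} (hN : GoodN N ρ) (i : Fin (k + 2)) :
    (Pi.single i (-1 : ℤ) : Pt k) ∈ N := by
  have h := hN.neg _ (single_mem hN i) i
  have h1 : Function.update (Pi.single i (1 : ℤ) : Pt k) i (-((Pi.single i (1 : ℤ) : Pt k) i)) =
      (Pi.single i (-1 : ℤ) : Pt k) := by
    funext j
    by_cases hj : j = i
    · subst hj
      simp
    · rw [Function.update_of_ne hj, Pi.single_eq_of_ne hj, Pi.single_eq_of_ne hj]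
  rw [h1] at h
  exact h

/-- Boxes are connected. -/
theorem box_conn {N : Finset (Pt k)} {ρ : ℕ} (hN : GoodN N ρ) (c : Pt k) (m : ℕ) :
    ∀ (d : ℕ) (x y : Pt k), x ∈ bx c m → y ∈ bx c m → (∑ i, |y i - x i|).toNat = d →
      Conn N ↑(bx c m) x y := by
  intro d
  induction d using Nat.strong_induction_on with
  | _ d ih =>
    intro x y hx hy hd
    by_cases hxy : x = y
    · subst hxy
      exact Relation.ReflTransGen.refl
    · obtain ⟨i, hi⟩ : ∃ i, x i ≠ y i := by
        by_contra h
        push Not at h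
        exact hxy (funext h)
      have hx' := mem_bx.1 hx
      have hy' := mem_bx.1 hy
      -- the next point
      obtain ⟨e, he, heN, he1⟩ : ∃ e : ℤ, (e = 1 ∨ e = -1) ∧ (Pi.single i e : Pt k) ∈ N ∧
          |y i - (x i + e)| = |y i - x i| - 1 := by
        rcases lt_or_gt_of_ne hi with h | h
        · refine ⟨1, Or.inl rfl, single_mem hN i, ?_⟩
          rw [abs_of_nonneg (by omega), abs_of_nonneg (by omega)]
          ring
        · refine ⟨-1, Or.inr rfl, single_mem' hN i, ?_⟩
          rw [abs_of_nonpos (by omega), abs_of_nonpos (by omega)]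
          ring
      have hz : (x + Pi.single i e : Pt k) ∈ bx c m := by
        rw [mem_bx]
        intro j
        by_cases hj : j = i
        · subst hj
          have h1 := hx' j
          have h2 := hy' j
          simp only [Pi.add_apply, Pi.single_eq_same]
          rw [abs_le] at h1 h2 ⊢
          rcases lt_or_gt_of_ne hi with h | h
          · rcases he with he | he
            · subst he
              constructor <;> linarith
            · subst he
              rw [abs_of_nonneg (by omega), abs_of_nonneg (by omega)] at he1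
              omega
          · rcases he with he | he
            · subst he
              rw [abs_of_nonpos (by omega), abs_of_nonpos (by omega)] at he1
              omega
            · subst he
              constructor <;> linarith
        · simp only [Pi.add_apply, Pi.single_eq_of_ne hj, add_zero]
          exact hx' j
      have hs : ∑ j, |y j - (x + Pi.single i e : Pt k) j| = ∑ j, |y j - x j| - 1 := by
        rw [← Finset.add_sum_erase _ _ (Finset.mem_univ i),
          ← Finset.add_sum_erase _ (fun j => |y j - x j|) (Finset.mem_univ i)]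
        have h1 : ∑ j ∈ Finset.univ.erase i, |y j - (x + Pi.single i e : Pt k) j| =
            ∑ j ∈ Finset.univ.erase i, |y j - x j| := by
          refine Finset.sum_congr rfl fun j hj => ?_
          simp only [Pi.add_apply, Pi.single_eq_of_ne (Finset.ne_of_mem_erase hj), add_zero]
        rw [h1]
        simp only [Pi.add_apply, Pi.single_eq_same]
        rw [he1]
        ring
      have hpos : 1 ≤ ∑ j, |y j - x j| := by
        have h1 : |y i - x i| ≤ ∑ j, |y j - x j| :=
          Finset.single_le_sum (f := fun j => |y j - x j|) (fun j _ => abs_nonneg _)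
            (Finset.mem_univ i)
        have h2 : 1 ≤ |y i - x i| := Int.one_le_abs (by omega)
        linarith
      have h4 : (x + Pi.single i e : Pt k) - x ∈ N := by
        rw [add_sub_cancel_left]
        exact heN
      generalize (x + Pi.single i e : Pt k) = z at hz hs h4
      have hlt : (∑ j, |y j - z j|).toNat < d := by
        rw [hs]
        omega
      have h3 : Conn N ↑(bx c m) z y := ih _ hlt z y hz hy rfl
      have h5 : z ∈ (↑(bx c m) : Set (Pt k)) := Finset.mem_coe.2 hz
      exact Relation.ReflTransGen.head (And.intro h4 h5) h3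

theorem conn_mono {N : Finset (Pt k)} {A B : Set (Pt k)} (h : A ⊆ B) {x y : Pt k}
    (hc : Conn N A x y) : Conn N B x y := by
  induction hc with
  | refl => exact Relation.ReflTransGen.refl
  | tail _ h1 ih => exact Relation.ReflTransGen.tail ih ⟨h1.1, h h1.2⟩

/-- Last visit of a path to a set. -/
theorem last_exit {N : Finset (Pt k)} {A X : Set (Pt k)} {s x : Pt k} (hs : s ∈ X)
    (hc : Conn N A s x) : ∃ v ∈ X, (v = s ∨ v ∈ A) ∧ Conn N (A \ X) v x := by
  induction hc with
  | refl => exact ⟨s, hs, Or.inl rfl, Relation.ReflTransGen.refl⟩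
  | @tail y z _ hyz ih =>
    by_cases hz : z ∈ X
    · exact ⟨z, hz, Or.inr hyz.2, Relation.ReflTransGen.refl⟩
    · obtain ⟨v, hv, hv1, hv2⟩ := ih
      exact ⟨v, hv, hv1, hv2.tail ⟨hyz.1, hyz.2, hz⟩⟩

/-- New boxes lie in the target. -/
theorem new_sub {m n : ℕ} {b : Pt k} {a : Fin (k + 2)} {σ b' : Pt k} (hσ : IsSg σ)
    (h : isNew m n b a σ b') : bx b' m ⊆ tgt m n b a σ := by
  intro x hx
  have hx' := mem_bx.1 hx
  obtain ⟨h1, h2⟩ := h
  have hcore : ∀ i, (σ i * (x i - b i) = σ i * (b' i - b i) + σ i * (x i - b' i)) ∧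
      |σ i * (x i - b' i)| ≤ m ∧ |x i - b i| = |σ i * (x i - b i)| := by
    intro i
    refine ⟨by ring, ?_, ?_⟩
    · rcases hσ i with h | h
      · rw [h, one_mul]
        exact hx' i
      · rw [h, neg_one_mul, abs_neg]
        exact hx' i
    · rcases hσ i with h | h
      · rw [h, one_mul]
      · rw [h, neg_one_mul, abs_neg]
  rw [tgt, Finset.mem_filter, mem_bx]
  refine ⟨?_, ?_, ?_⟩
  · intro i
    obtain ⟨h3, h4, h5⟩ := hcore i
    rw [h5, h3]
    rw [abs_le] at h4 ⊢
    by_cases hi : i = a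
    · subst hi
      rw [h1]
      push_cast
      constructor <;> linarith [h4.1, h4.2]
    · obtain ⟨h6, h7⟩ := h2 i hi
      push_cast
      constructor <;> linarith [h4.1, h4.2]
  · obtain ⟨h3, h4, h5⟩ := hcore a
    rw [h3, h1]
    rw [abs_le] at h4
    linarith [h4.1]
  · intro i hi
    obtain ⟨h3, h4, h5⟩ := hcore i
    obtain ⟨h6, h7⟩ := h2 i hi
    rw [h3]
    rw [abs_le] at h4
    constructor <;> linarith [h4.1, h4.2]

/-- `v` is joined through `A` to a full new box. -/
def Good (N : Finset (Pt k)) (m n : ℕ) (b : Pt k) (a : Fin (k + 2)) (σ : Pt k)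
    (A : Finset (Pt k)) (v : Pt k) : Prop :=
  ∃ b', isNew m n b a σ b' ∧ bx b' m ⊆ A ∧
    ∃ x ∈ bx b n, Conn N ↑(A ∩ bx b n) v x ∧ ∃ y ∈ bx b' m, y - x ∈ N

open Classical in
/-- The explored sites that are joined to a full new box. -/
noncomputable def GG (N : Finset (Pt k)) (m n : ℕ) (b : Pt k) (a : Fin (k + 2)) (σ : Pt k)
    (X A : Finset (Pt k)) : Finset (Pt k) :=
  (X ∩ bx b n).filter (Good N m n b a σ A)

theorem seed_good {N : Finset (Pt k)} {m n : ℕ} {b : Pt k} {a : Fin (k + 2)} {σ : Pt k}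
    {X w : Finset (Pt k)} (hσ : IsSg σ) (hmn : m ≤ n) (hR : bx b m ⊆ X)
    (hd : Disjoint (tgt m n b a σ) X) (h : SeedEv N m n b a σ w) :
    ∃ v ∈ GG N m n b a σ X (w \ X), v ∈ bx b m ∨ v ∈ w := by
  classical
  obtain ⟨b', hb', hfull, s₀, hs₀, x, hx, hc, y, hy, hyx⟩ := h
  have hs₀X : s₀ ∈ (↑X : Set (Pt k)) := hR hs₀
  obtain ⟨v, hvX, hv1, hv2⟩ := last_exit hs₀X hc
  have hvn : v ∈ bx b n := by
    rcases hv1 with h1 | h1
    · subst h1
      rw [mem_bx] at hs₀ ⊢
      intro i
      exact le_trans (hs₀ i) (by exact_mod_cast hmn)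
    · exact (Finset.mem_inter.1 (Finset.mem_coe.1 h1)).2
  refine ⟨v, ?_, ?_⟩
  · unfold GG
    rw [Finset.mem_filter, Finset.mem_inter]
    refine ⟨⟨hvX, hvn⟩, b', hb', ?_, x, hx, ?_, y, hy, hyx⟩
    · intro z hz
      rw [Finset.mem_sdiff]
      exact ⟨hfull hz, fun h1 => Finset.disjoint_left.1 hd (new_sub hσ hb' hz) h1⟩
    · refine conn_mono ?_ hv2
      intro z hz
      obtain ⟨hz1, hz2⟩ := hz
      rw [Finset.mem_coe, Finset.mem_inter] at hz1
      rw [Finset.mem_coe, Finset.mem_inter, Finset.mem_sdiff]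
      exact ⟨⟨hz1.1, hz2⟩, hz1.2⟩
  · rcases hv1 with h1 | h1
    · left
      subst h1
      exact hs₀
    · right
      exact (Finset.mem_inter.1 (Finset.mem_coe.1 h1)).1

/-- Sites of `W \ X` in layer `0` of `A`. -/
def lay0 (U : Finset (Pt k)) (A : Finset (Pt k × ℕ)) : Finset (Pt k) :=
  U.filter (fun v => (v, 0) ∈ A)

theorem reach {N : Finset (Pt k)} {ρ : ℕ} (hN : GoodN N ρ) {m n : ℕ} {b : Pt k}
    {a : Fin (k + 2)} {σ : Pt k} {s : St k} {ℓ : ℕ} {A : Finset (Pt k × ℕ)} {v : Pt k}
    (hE : ∀ v ∈ s.E, v ∈ win m n b a σ → ∃ u ∈ s.R, v - u ∈ N)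
    (hv : v ∈ GG N m n b a σ (s.R ∪ s.E) (lay0 (win m n b a σ \ (s.R ∪ s.E)) A))
    (h : v ∈ s.R ∨ (v, ℓ) ∈ A) :
    ∃ b', isNew m n b a σ b' ∧ bx b' m ⊆ nR N (win m n b a σ) ℓ s A := by
  classical
  unfold GG at hv
  rw [Finset.mem_filter, Finset.mem_inter] at hv
  obtain ⟨⟨hvX, hvn⟩, b', hb', hfull, x, hx, hc, y, hy, hyx⟩ := hv
  have hsub : (↑(lay0 (win m n b a σ \ (s.R ∪ s.E)) A) : Set (Pt k)) ⊆
      ↑(opAt (win m n b a σ) ℓ s A) := by
    intro z hz
    unfold lay0 at hz
    rw [Finset.mem_coe, Finset.mem_filter, Finset.mem_sdiff, Finset.mem_union] at hz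
    unfold opAt
    rw [Finset.mem_coe, Finset.mem_filter, Finset.mem_sdiff]
    push Not at hz
    exact ⟨⟨hz.1.1, hz.1.2.1⟩, Or.inr ⟨hz.1.2.2, hz.2⟩⟩
  -- a point of the cluster from which `v` is reached
  obtain ⟨r, hr, hrv⟩ : ∃ r ∈ s.R, Conn N ↑(opAt (win m n b a σ) ℓ s A) r v := by
    by_cases hvR : v ∈ s.R
    · exact ⟨v, hvR, Relation.ReflTransGen.refl⟩
    · have hvA : (v, ℓ) ∈ A := by
        rcases h with h | h
        · exact absurd h hvR
        · exact h
      have hvW : v ∈ win m n b a σ := Finset.mem_union_left _ hvn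
      have hvE : v ∈ s.E := by
        rcases Finset.mem_union.1 hvX with h1 | h1
        · exact absurd h1 hvR
        · exact h1
      obtain ⟨u, hu, huv⟩ := hE v hvE hvW
      refine ⟨u, hu, Relation.ReflTransGen.single ⟨huv, ?_⟩⟩
      unfold opAt
      rw [Finset.mem_coe, Finset.mem_filter, Finset.mem_sdiff]
      exact ⟨⟨hvW, hvR⟩, Or.inl hvA⟩
  have hrx : Conn N ↑(opAt (win m n b a σ) ℓ s A) r x := by
    refine hrv.trans (conn_mono ?_ hc)
    intro z hz
    exact hsub (Finset.mem_coe.2 (Finset.mem_inter.1 (Finset.mem_coe.1 hz)).1)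
  have hbop : (↑(bx b' m) : Set (Pt k)) ⊆ ↑(opAt (win m n b a σ) ℓ s A) := by
    intro z hz
    exact hsub (Finset.mem_coe.2 (hfull (Finset.mem_coe.1 hz)))
  have hry : Conn N ↑(opAt (win m n b a σ) ℓ s A) r y := hrx.tail ⟨hyx, hbop hy⟩
  refine ⟨b', hb', ?_⟩
  intro z hz
  unfold nR
  rw [Finset.mem_union, Finset.mem_filter]
  right
  refine ⟨hbop hz, r, hr, hry.trans (conn_mono hbop (box_conn hN b' m _ y z hy hz rfl))⟩

theorem u01 {p ε : ℝ} {K : ℕ} {s : St k} (hp : 0 < p) (hp1 : p < 1) (he : 0 < ε) (he1 : ε < 1)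
    (h : OKs p ε K s) (V : Finset (Pt k × ℕ)) : U01 V s.q := by
  rintro ⟨v, j⟩ _
  rcases h.val v j with h | h | h
  · rw [h]; norm_num
  · rw [h]; norm_num
  · rw [h]
    unfold q0
    split_ifs <;> constructor <;> linarith

theorem spr : SprStmt := by
  classical
  intro k N ρ p ε K m n hN hp hp1 hε hε1 Λ s b a σ ℓ hσ hok hℓ1 hℓK hWΛ hbR hmn hdis hqℓ hE η t
    hseed
  set W := win m n b a σ with hW
  set X := s.R ∪ s.E with hX
  set U := W \ X with hU
  set Y := W ∩ X with hY
  set V := Λ ×ˢ Finset.range (K + 1) with hV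
  have hV01 : U01 V s.q := u01 hp hp1 hε hε1 hok V
  have hbX : bx b m ⊆ X := hbR.trans Finset.subset_union_left
  -- embeddings of the two sets of coordinates
  let e₀ : Pt k ↪ Pt k × ℕ := ⟨fun v => (v, 0), fun v w h => (Prod.ext_iff.1 h).1⟩
  let e₁ : Pt k ↪ Pt k × ℕ := ⟨fun v => (v, ℓ), fun v w h => (Prod.ext_iff.1 h).1⟩
  have hZ0 : U.map e₀ ⊆ V := by
    intro x hx
    obtain ⟨v, hv, rfl⟩ := Finset.mem_map.1 hx
    rw [hV, Finset.mem_product, Finset.mem_range]
    exact ⟨hWΛ (Finset.mem_sdiff.1 hv).1, Nat.succ_pos K⟩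
  have hZ1 : Y.map e₁ ⊆ V := by
    intro x hx
    obtain ⟨v, hv, rfl⟩ := Finset.mem_map.1 hx
    rw [hV, Finset.mem_product, Finset.mem_range]
    exact ⟨hWΛ (Finset.mem_inter.1 hv).1, Nat.lt_succ_of_le hℓK⟩
  have hZd : Disjoint (U.map e₀) (Y.map e₁) := by
    rw [Finset.disjoint_left]
    intro x hx hx'
    obtain ⟨v, hv, rfl⟩ := Finset.mem_map.1 hx
    obtain ⟨v', hv', h⟩ := Finset.mem_map.1 hx'
    have := (Prod.ext_iff.1 h).2
    change ℓ = 0 at this
    omega
  have hGsub : ∀ B, GG N m n b a σ X B ⊆ Y := by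
    intro B v hv
    unfold GG at hv
    rw [Finset.mem_filter, Finset.mem_inter] at hv
    rw [hY, Finset.mem_inter]
    exact ⟨Finset.mem_union_left _ hv.1.2, hv.1.1⟩
  -- step 1: comparison with an event on two disjoint sets of coordinates
  let F : Finset (Pt k × ℕ) → Finset (Pt k × ℕ) → Prop := fun B C =>
    (∀ v ∈ GG N m n b a σ X (lay0 U B), v ∉ s.R) ∧
      ∀ v ∈ GG N m n b a σ X (lay0 U B), (v, ℓ) ∉ C
  have hlay : ∀ A : Finset (Pt k × ℕ), lay0 U (A ∩ U.map e₀) = lay0 U A := by
    intro A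
    unfold lay0
    refine Finset.filter_congr fun v hv => ?_
    rw [Finset.mem_inter]
    exact ⟨fun h => h.1, fun h => ⟨h, Finset.mem_map.2 ⟨v, hv, rfl⟩⟩⟩
  have step1 : PSt Λ K s (fun A => ¬ ∃ b', isNew m n b a σ b' ∧
      bx b' m ⊆ nR N (win m n b a σ) ℓ s A) ≤
      PS V s.q (fun A => F (A ∩ U.map e₀) (A ∩ Y.map e₁)) := by
    unfold PSt
    refine PS_mono hV01 fun A _ hA => ?_
    refine ⟨fun v hv hvR => hA ?_, fun v hv hvA => hA ?_⟩
    · rw [hlay] at hv
      exact reach hN hE hv (Or.inl hvR)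
    · rw [hlay] at hv
      exact reach hN hE hv (Or.inr (Finset.mem_inter.1 hvA).1)
  have step2 : PS V s.q (fun A => F (A ∩ U.map e₀) (A ∩ Y.map e₁)) =
      EX (U.map e₀) s.q (fun B => EX (Y.map e₁) s.q (fun C => if F B C then 1 else 0)) := by
    rw [PS_marg (Finset.union_subset hZ0 hZ1) s.q (fun A _ => by
      rw [Finset.inter_assoc, Finset.inter_assoc,
        Finset.inter_eq_right.2 (Finset.subset_union_left : U.map e₀ ⊆ U.map e₀ ∪ Y.map e₁),
        Finset.inter_eq_right.2 (Finset.subset_union_right : Y.map e₁ ⊆ U.map e₀ ∪ Y.map e₁)]),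
      PS_def]
    exact EX_union hZd s.q (fun B C => if F B C then 1 else 0)
  have step3 : ∀ B, EX (Y.map e₁) s.q (fun C => if F B C then (1 : ℝ) else 0) =
      if (∀ v ∈ GG N m n b a σ X (lay0 U B), v ∉ s.R) then
        (1 - ε) ^ (GG N m n b a σ X (lay0 U B)).card else 0 := by
    intro B
    by_cases h1 : ∀ v ∈ GG N m n b a σ X (lay0 U B), v ∉ s.R
    · rw [if_pos h1]
      have h2 : EX (Y.map e₁) s.q (fun C => if F B C then (1 : ℝ) else 0) =
          PS (Y.map e₁) s.q (fun C => ∀ x ∈ (GG N m n b a σ X (lay0 U B)).map e₁, x ∉ C) := by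
        rw [PS_def]
        refine EX_congr (fun _ _ => rfl) fun C _ => ?_
        have h3 : F B C ↔ ∀ x ∈ (GG N m n b a σ X (lay0 U B)).map e₁, x ∉ C := by
          constructor
          · rintro ⟨_, h4⟩ x hx
            obtain ⟨v, hv, rfl⟩ := Finset.mem_map.1 hx
            exact h4 v hv
          · intro h4
            exact ⟨h1, fun v hv => h4 _ (Finset.mem_map.2 ⟨v, hv, rfl⟩)⟩
        simp only [h3]
      rw [h2, PS_miss (Finset.map_subset_map.2 (hGsub _)), Finset.prod_map]
      rw [Finset.prod_congr rfl (g := fun _ => 1 - ε) (fun v hv => by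
        have hvW : v ∈ win m n b a σ := (Finset.mem_inter.1 (hGsub _ hv)).1
        change 1 - s.q (v, ℓ) = 1 - ε
        rw [hqℓ v hvW]), Finset.prod_const]
    · rw [if_neg h1]
      rw [EX_congr (f' := fun _ => 0) (fun _ _ => rfl) (fun C _ => if_neg (fun h2 => h1 h2.1)),
        EX_const]
  -- step 4: the window
  have hUW : U ∪ Y = W := by
    rw [hU, hY]
    exact Finset.sdiff_union_inter W X
  have hUY : Disjoint U Y := by
    rw [Finset.disjoint_left]
    intro v hv hv'
    exact (Finset.mem_sdiff.1 hv).2 (Finset.mem_inter.1 hv').2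
  have hpW : ∀ Z : Finset (Pt k), U01 Z (fun _ => p) := fun Z v _ => ⟨hp.le, hp1.le⟩
  have step4 : EX U (fun _ => p) (fun B => if (∀ v ∈ GG N m n b a σ X B, v ∉ s.R) then
        (1 - p) ^ (GG N m n b a σ X B).card else 0) ≤ η := by
    have h1 : PS W (fun _ => p) (fun w => ¬ SeedEv N m n b a σ w) ≤ η := by
      rw [PS_not]
      linarith
    refine le_trans ?_ h1
    have h2 : PS W (fun _ => p) (fun w => ¬ SeedEv N m n b a σ w) =
        EX U (fun _ => p) (fun B => EX Y (fun _ => p) (fun C =>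
          if ¬ SeedEv N m n b a σ (B ∪ C) then 1 else 0)) := by
      rw [PS_def, ← EX_union hUY (fun _ => p) (fun B C =>
        if ¬ SeedEv N m n b a σ (B ∪ C) then 1 else 0), hUW]
      refine EX_congr (fun _ _ => rfl) fun A hA => ?_
      rw [← Finset.inter_union_distrib_left, hUW, Finset.inter_eq_left.2 hA]
    rw [h2]
    refine EX_mono (hpW _) fun B hB => ?_
    by_cases h3 : ∀ v ∈ GG N m n b a σ X B, v ∉ s.R
    · rw [if_pos h3]
      have h4 : (1 - p) ^ (GG N m n b a σ X B).card =
          PS Y (fun _ => p) (fun C => ∀ v ∈ GG N m n b a σ X B, v ∉ C) := by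
        rw [PS_miss (hGsub _), Finset.prod_const]
      rw [h4, PS_def]
      refine EX_mono (hpW _) fun C hC => ?_
      by_cases h5 : ∀ v ∈ GG N m n b a σ X B, v ∉ C
      · rw [if_pos h5, if_pos]
        intro h6
        obtain ⟨v, hv, hv'⟩ := seed_good hσ hmn hbX hdis h6
        have h7 : (B ∪ C) \ X = B := by
          ext x
          rw [Finset.mem_sdiff, Finset.mem_union]
          constructor
          · rintro ⟨h8 | h8, h9⟩
            · exact h8
            · exact absurd (Finset.mem_inter.1 (hC h8)).2 h9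
          · intro h8
            exact ⟨Or.inl h8, (Finset.mem_sdiff.1 (hB h8)).2⟩
        rw [h7] at hv
        rcases hv' with h8 | h8
        · exact h3 v hv (hbR h8)
        · rcases Finset.mem_union.1 h8 with h9 | h9
          · exact (Finset.mem_sdiff.1 (hB h9)).2 (Finset.mem_inter.1 (hGsub _ hv)).2
          · exact h5 v hv h9
      · rw [if_neg h5]
        split_ifs <;> norm_num
    · rw [if_neg h3]
      exact EX_nonneg (hpW _) fun C _ => by split_ifs <;> norm_num
  -- step 5: transfer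
  have step5 : EX (U.map e₀) s.q (fun B => if (∀ v ∈ GG N m n b a σ X (lay0 U B), v ∉ s.R) then
        (1 - ε) ^ (GG N m n b a σ X (lay0 U B)).card else 0) =
      EX U (fun _ => p) (fun B => if (∀ v ∈ GG N m n b a σ X B, v ∉ s.R) then
        (1 - ε) ^ (GG N m n b a σ X B).card else 0) := by
    rw [EX_map]
    refine EX_congr (fun v hv => ?_) fun B hB => ?_
    · have hv' := Finset.mem_sdiff.1 hv
      rw [hX, Finset.mem_union] at hv'
      push Not at hv'
      change s.q (v, 0) = p
      rw [hok.free v hv'.2.1 hv'.2.2 0]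
      simp [q0]
    · have h1 : lay0 U (B.map e₀) = B := by
        ext v
        unfold lay0
        rw [Finset.mem_filter]
        constructor
        · rintro ⟨_, h2⟩
          obtain ⟨v', hv', h3⟩ := Finset.mem_map.1 h2
          have : v' = v := (Prod.ext_iff.1 h3).1
          rwa [← this]
        · intro h2
          exact ⟨hB h2, Finset.mem_map.2 ⟨v, h2, rfl⟩⟩
      rw [h1]
  have hq : 0 < 1 - p := by linarith
  have hr : 0 < 1 - ε := by linarith
  have step6 : ∀ g : ℕ, (1 - ε) ^ g ≤ (1 - p) ^ g / (1 - p) ^ t + (1 - ε) ^ t := by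
    intro g
    rcases le_or_gt t g with h1 | h1
    · have h2 : (1 - ε) ^ g ≤ (1 - ε) ^ t := pow_le_pow_of_le_one hr.le (by linarith) h1
      have h3 : 0 ≤ (1 - p) ^ g / (1 - p) ^ t := by positivity
      linarith
    · have h2 : (1 - ε) ^ g ≤ 1 := pow_le_one₀ hr.le (by linarith)
      have h3 : (1 - p) ^ t ≤ (1 - p) ^ g := pow_le_pow_of_le_one hq.le (by linarith) h1.le
      have h4 : 1 ≤ (1 - p) ^ g / (1 - p) ^ t := by
        rw [le_div_iff₀ (by positivity), one_mul]
        exact h3
      have h5 : 0 ≤ (1 - ε) ^ t := by positivity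
      linarith
  calc PSt Λ K s (fun A => ¬ ∃ b', isNew m n b a σ b' ∧
      bx b' m ⊆ nR N (win m n b a σ) ℓ s A)
      ≤ EX U (fun _ => p) (fun B => if (∀ v ∈ GG N m n b a σ X B, v ∉ s.R) then
        (1 - ε) ^ (GG N m n b a σ X B).card else 0) := by
        rw [← step5]
        refine step1.trans (le_of_eq ?_)
        rw [step2]
        exact EX_congr (fun _ _ => rfl) fun B _ => step3 B
    _ ≤ EX U (fun _ => p) (fun B => ((1 - p) ^ t)⁻¹ * (if (∀ v ∈ GG N m n b a σ X B, v ∉ s.R) then
        (1 - p) ^ (GG N m n b a σ X B).card else 0) + (1 - ε) ^ t) := by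
        refine EX_mono (hpW _) fun B _ => ?_
        by_cases h1 : ∀ v ∈ GG N m n b a σ X B, v ∉ s.R
        · rw [if_pos h1, if_pos h1]
          have := step6 (GG N m n b a σ X B).card
          rw [div_eq_inv_mul] at this
          exact this
        · rw [if_neg h1, if_neg h1]
          positivity
    _ = ((1 - p) ^ t)⁻¹ * EX U (fun _ => p) (fun B =>
        if (∀ v ∈ GG N m n b a σ X B, v ∉ s.R) then
        (1 - p) ^ (GG N m n b a σ X B).card else 0) + (1 - ε) ^ t := by
        rw [EX_add, EX_mul, EX_const]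
    _ ≤ η / (1 - p) ^ t + (1 - ε) ^ t := by
        rw [div_eq_inv_mul]
        have h1 : 0 ≤ ((1 - p) ^ t)⁻¹ := by positivity
        have := mul_le_mul_of_nonneg_left step4 h1
        linarith

end Pool.Agent.TP.H99
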